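import Pool.Agent.Y466.TW.Stm

/-! # TW-CONGB: direct sums and tensor products of hyperbolic/symplectic forms (helper436) -/

set_option autoImplicit false

namespace Pool.Agent.Y436.TW

open Matrix
open scoped Kronecker
open Pool.Agent.Y466.TW

/-- reindexing for the sum of two forms of known type -/
def eA (α α' β β' : Type) :
    (((α ⊕ α') × Fin 8) ⊕ ((β ⊕ β') ⊕ (β ⊕ β'))) ≃
      (((α × Fin 8) ⊕ (β ⊕ β)) ⊕ ((α' × Fin 8) ⊕ (β' ⊕ β'))) where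
  toFun
    | .inl (.inl a, i) => .inl (.inl (a, i))
    | .inl (.inr a, i) => .inr (.inl (a, i))
    | .inr (.inl (.inl b)) => .inl (.inr (.inl b))
    | .inr (.inl (.inr b)) => .inr (.inr (.inl b))
    | .inr (.inr (.inl b)) => .inl (.inr (.inr b))
    | .inr (.inr (.inr b)) => .inr (.inr (.inr b))
  invFun
    | .inl (.inl (a, i)) => .inl (.inl a, i)
    | .inr (.inl (a, i)) => .inl (.inr a, i)
    | .inl (.inr (.inl b)) => .inr (.inl (.inl b))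
    | .inr (.inr (.inl b)) => .inr (.inl (.inr b))
    | .inl (.inr (.inr b)) => .inr (.inr (.inl b))
    | .inr (.inr (.inr b)) => .inr (.inr (.inr b))
  left_inv := by rintro (⟨a | a, i⟩ | (b | b) | (b | b)) <;> rfl
  right_inv := by rintro ((⟨a, i⟩ | b | b) | (⟨a, i⟩ | b | b)) <;> rfl

/-- reindexing for the sum with a hyperbolic form -/
def eB (δ β γ : Type) :
    (δ ⊕ ((β ⊕ γ) ⊕ (β ⊕ γ))) ≃ ((δ ⊕ (β ⊕ β)) ⊕ (γ ⊕ γ)) where
  toFun
    | .inl a => .inl (.inl a)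
    | .inr (.inl (.inl b)) => .inl (.inr (.inl b))
    | .inr (.inl (.inr b)) => .inr (.inl b)
    | .inr (.inr (.inl b)) => .inl (.inr (.inr b))
    | .inr (.inr (.inr b)) => .inr (.inr b)
  invFun
    | .inl (.inl a) => .inl a
    | .inl (.inr (.inl b)) => .inr (.inl (.inl b))
    | .inr (.inl b) => .inr (.inl (.inr b))
    | .inl (.inr (.inr b)) => .inr (.inr (.inl b))
    | .inr (.inr b) => .inr (.inr (.inr b))
  left_inv := by rintro (a | (b | b) | (b | b)) <;> rfl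
  right_inv := by rintro ((a | b | b) | (b | b)) <;> rfl

/-- reindexing for products -/
def eC (α δ : Type) : ((α × δ) ⊕ (α × δ)) ≃ ((α ⊕ α) × δ) where
  toFun
    | .inl (a, d) => (.inl a, d)
    | .inr (a, d) => (.inr a, d)
  invFun
    | (.inl a, d) => .inl (a, d)
    | (.inr a, d) => .inr (a, d)
  left_inv := by rintro (⟨a, d⟩ | ⟨a, d⟩) <;> rfl
  right_inv := by rintro ⟨a | a, d⟩ <;> rfl

theorem EH_sum (α α' β β' : Type) [DecidableEq α] [DecidableEq α'] [DecidableEq β]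
    [DecidableEq β'] :
    (fromBlocks (EH α β) 0 0 (EH α' β')).submatrix (eA α α' β β') (eA α α' β β') =
      EH (α ⊕ α') (β ⊕ β') := by
  ext x y
  rcases x with (⟨a | a, i⟩ | (b | b) | (b | b)) <;>
    rcases y with (⟨a' | a', i'⟩ | (b' | b') | (b' | b')) <;>
    simp [eA, EH, Hyp, Matrix.one_apply, Matrix.kroneckerMap_apply]

theorem EH_hyp (α β γ : Type) [DecidableEq α] [DecidableEq β] [DecidableEq γ] :
    (fromBlocks (EH α β) 0 0 (Hyp γ)).submatrix (eB (α × Fin 8) β γ) (eB (α × Fin 8) β γ) =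
      EH α (β ⊕ γ) := by
  ext x y
  rcases x with (a | (b | b) | (b | b)) <;>
    rcases y with (a' | (b' | b') | (b' | b')) <;>
    simp [eB, EH, Hyp, Matrix.one_apply]

theorem J_sq (β : Type) [Fintype β] [DecidableEq β] : Pool.Agent.Y466.TW.J β * Pool.Agent.Y466.TW.J β = -1 := by
  rw [Pool.Agent.Y466.TW.J, fromBlocks_multiply, ← fromBlocks_one, fromBlocks_neg]
  simp

theorem J_tr (β : Type) [DecidableEq β] : (Pool.Agent.Y466.TW.J β)ᵀ = -Pool.Agent.Y466.TW.J β := by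
  rw [Pool.Agent.Y466.TW.J, fromBlocks_transpose, fromBlocks_neg]
  simp

/-- the block antidiagonal form of an antisymmetric square root of `-1` is hyperbolic -/
theorem cong_hyp {γ : Type} [Fintype γ] [DecidableEq γ] (N : Matrix γ γ ℤ) (h1 : Nᵀ = -N)
    (h2 : N * N = -1) : Cong (fromBlocks 0 N (-N) 0) (Hyp γ) := by
  refine ⟨fromBlocks N 0 0 1, fromBlocks (-N) 0 0 1, ?_, ?_, ?_⟩
  · rw [fromBlocks_multiply, ← fromBlocks_one]
    simp [h2]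
  · rw [fromBlocks_multiply, ← fromBlocks_one]
    simp [h2]
  · rw [fromBlocks_transpose, fromBlocks_multiply, fromBlocks_multiply, Hyp, h1]
    simp [h2]

theorem JX_sub (α β : Type) [DecidableEq α] [DecidableEq β] :
    (-(Pool.Agent.Y466.TW.J α ⊗ₖ Pool.Agent.Y466.TW.J β)).submatrix (eC α (β ⊕ β)) (eC α (β ⊕ β)) =
      fromBlocks 0 (-((1 : Matrix α α ℤ) ⊗ₖ Pool.Agent.Y466.TW.J β)) (-(-((1 : Matrix α α ℤ) ⊗ₖ Pool.Agent.Y466.TW.J β))) 0 := by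
  ext x y
  rcases x with (⟨a, i⟩ | ⟨a, i⟩) <;> rcases y with (⟨a', i'⟩ | ⟨a', i'⟩) <;>
    simp [eC, Pool.Agent.Y466.TW.J, Matrix.kroneckerMap_apply]

theorem cong_kron {ι κ : Type} [Fintype ι] [DecidableEq ι] [Fintype κ] [DecidableEq κ]
    {α β : Type} [Fintype α] [DecidableEq α] [Fintype β] [DecidableEq β]
    (σ : Matrix ι ι ℤ) (τ : Matrix κ κ ℤ) (σ' : Matrix α α ℤ) (τ' : Matrix β β ℤ)
    (h1 : Cong σ σ') (h2 : Cong τ τ') : Cong (-(σ ⊗ₖ τ)) (-(σ' ⊗ₖ τ')) := by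
  obtain ⟨Q, R, hQR, hRQ, hσ⟩ := h1
  obtain ⟨Q', R', hQR', hRQ', hτ⟩ := h2
  refine ⟨Q ⊗ₖ Q', R ⊗ₖ R', ?_, ?_, ?_⟩
  · rw [← Matrix.mul_kronecker_mul, hQR, hQR', Matrix.one_kronecker_one]
  · rw [← Matrix.mul_kronecker_mul, hRQ, hRQ', Matrix.one_kronecker_one]
  · have ht : (Q ⊗ₖ Q')ᵀ = Qᵀ ⊗ₖ Q'ᵀ := by
      ext x y
      simp [Matrix.kroneckerMap_apply]
    rw [ht, Matrix.mul_neg, Matrix.neg_mul, ← Matrix.mul_kronecker_mul,
      ← Matrix.mul_kronecker_mul, hσ, hτ]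

theorem sp_kron (h : CONGA) {ι κ : Type} [Fintype ι] [DecidableEq ι] [Fintype κ]
    [DecidableEq κ] (σ : Matrix ι ι ℤ) (τ : Matrix κ κ ℤ) (h1 : SP σ) (h2 : SP τ) :
    ∃ (γ : Type) (_ : Fintype γ) (_ : DecidableEq γ), Cong (-(σ ⊗ₖ τ)) (Hyp γ) := by
  obtain ⟨α, iα, dα, hα⟩ := h1
  obtain ⟨β, iβ, dβ, hβ⟩ := h2
  refine ⟨α × (β ⊕ β), inferInstance, inferInstance, ?_⟩
  have a1 := cong_kron σ τ (Pool.Agent.Y466.TW.J α) (Pool.Agent.Y466.TW.J β) hα hβ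
  have a2 := (h.2.1 ((α ⊕ α) × (β ⊕ β)) ((α × (β ⊕ β)) ⊕ (α × (β ⊕ β))) (-(Pool.Agent.Y466.TW.J α ⊗ₖ Pool.Agent.Y466.TW.J β))
    (eC α (β ⊕ β))).1
  rw [JX_sub] at a2
  have a3 : Cong (fromBlocks 0 (-((1 : Matrix α α ℤ) ⊗ₖ Pool.Agent.Y466.TW.J β))
      (-(-((1 : Matrix α α ℤ) ⊗ₖ Pool.Agent.Y466.TW.J β))) 0) (Hyp (α × (β ⊕ β))) := by
    apply cong_hyp
    · have ht : ((1 : Matrix α α ℤ) ⊗ₖ Pool.Agent.Y466.TW.J β)ᵀ = (1 : Matrix α α ℤ)ᵀ ⊗ₖ (Pool.Agent.Y466.TW.J β)ᵀ := by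
        ext x y
        rfl
      rw [Matrix.transpose_neg, ht, J_tr, Matrix.transpose_one]
      ext x y
      simp only [Matrix.kroneckerMap_apply, Matrix.neg_apply]
      ring
    · rw [neg_mul_neg, ← Matrix.mul_kronecker_mul, J_sq, Matrix.one_mul,
        ← Matrix.one_kronecker_one]
      ext x y
      simp only [Matrix.kroneckerMap_apply, Matrix.neg_apply]
      ring
  exact h.1 _ _ _ _ _ _ a1 (h.1 _ _ _ _ _ _ a2 a3)

theorem congb (h : CONGA) : CONGB := by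
  refine ⟨?_, ?_⟩
  · intro α β iα dα iβ dβ G G' k k' hG hG'
    obtain ⟨a, b, ia, da, ib, db, hk, hC⟩ := hG
    obtain ⟨a', b', ia', da', ib', db', hk', hC'⟩ := hG'
    refine ⟨a ⊕ a', b ⊕ b', inferInstance, inferInstance, inferInstance, inferInstance, ?_, ?_⟩
    · rw [Fintype.card_sum, hk, hk']
    · have a1 := h.2.2.1 _ _ _ _ _ _ _ _ hC hC'
      have a2 := (h.2.1 _ _ (fromBlocks (EH a b) 0 0 (EH a' b')) (eA a a' b b')).1
      rw [EH_sum] at a2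
      exact h.1 _ _ _ _ _ _ a1 a2
  · intro α ι κ iα dα iι dι iκ dκ G k σ τ hG hσ hτ
    obtain ⟨a, b, ia, da, ib, db, hk, hC⟩ := hG
    obtain ⟨γ, iγ, dγ, hγ⟩ := sp_kron h σ τ hσ hτ
    refine ⟨a, b ⊕ γ, ia, da, inferInstance, inferInstance, hk, ?_⟩
    have a1 := h.2.2.1 _ _ _ _ _ _ _ _ hC hγ
    have a2 := (h.2.1 _ _ (fromBlocks (EH a b) 0 0 (Hyp γ)) (eB (a × Fin 8) b γ)).1
    rw [EH_hyp] at a2
    exact h.1 _ _ _ _ _ _ a1 a2

end Pool.Agent.Y436.TW
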